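import Pool.Agent.Helper84.BA.Defs1

/-!
# Project BA: Koenig's lemma for names of compact families
-/

set_option autoImplicit false

namespace Pool.Agent.Helper94.BA

open Pool.Agent.Helper33.HM

universe u

variable {B : Type u} [CompleteBooleanAlgebra B]

theorem h36_PC_anti (x : ℕ → B) {s t : Finset ℕ} (h : s ⊆ t) : PC x t ≤ PC x s :=
  le_iInf fun n => le_iInf fun hn => iInf_le_of_le n (iInf_le_of_le (h hn) le_rfl)

theorem h36_PC_le (x : ℕ → B) {s : Finset ℕ} {n : ℕ} (h : n ∈ s) : PC x s ≤ x n :=
  iInf_le_of_le n (iInf_le_of_le h le_rfl)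

/-- The value of: `x ∩ N = s`. -/
def h36_E (x : ℕ → B) (N : ℕ) (s : Finset ℕ) : B :=
  ⨅ i : ℕ, ⨅ _ : i < N, if i ∈ s then x i else (x i)ᶜ

theorem h36_E_top (x : ℕ → B) (N : ℕ) :
    ⨆ s : Finset ℕ, ⨆ _ : s ⊆ Finset.range N, h36_E x N s = ⊤ := by
  induction N with
  | zero =>
    refine top_le_iff.1 ?_
    refine le_iSup_of_le ∅ (le_iSup_of_le (by simp) ?_)
    refine le_iInf fun i => le_iInf fun hi => ?_
    omega
  | succ N ih =>
    rw [← top_le_iff, ← ih]
    refine iSup_le fun s => iSup_le fun hs => ?_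
    have hNs : N ∉ s := fun h => by simpa using hs h
    calc h36_E x N s = h36_E x N s ⊓ (x N ⊔ (x N)ᶜ) := by rw [sup_compl_eq_top, inf_top_eq]
      _ ≤ _ := by
        rw [inf_sup_left]
        refine sup_le ?_ ?_
        · refine le_iSup_of_le (insert N s) (le_iSup_of_le ?_ ?_)
          · intro i hi
            rw [Finset.mem_insert] at hi
            rcases hi with rfl | hi
            · simp
            · have := hs hi
              simp only [Finset.mem_range] at this ⊢
              omega
          · refine le_iInf fun i => le_iInf fun hi => ?_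
            rcases Nat.lt_succ_iff_lt_or_eq.1 hi with h | rfl
            · refine inf_le_left.trans ((iInf_le_of_le i (iInf_le_of_le h le_rfl)).trans ?_)
              have h1 : (i ∈ insert N s) ↔ i ∈ s := by
                rw [Finset.mem_insert]
                constructor
                · rintro (h2 | h2)
                  · omega
                  · exact h2
                · exact Or.inr
              simp only [h1]
              exact le_rfl
            · rw [if_pos (Finset.mem_insert_self _ _)]
              exact inf_le_right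
        · refine le_iSup_of_le s (le_iSup_of_le ?_ ?_)
          · intro i hi
            have := hs hi
            simp only [Finset.mem_range] at this ⊢
            omega
          · refine le_iInf fun i => le_iInf fun hi => ?_
            rcases Nat.lt_succ_iff_lt_or_eq.1 hi with h | rfl
            · exact inf_le_left.trans (iInf_le_of_le i (iInf_le_of_le h le_rfl))
            · rw [if_neg hNs]
              exact inf_le_right

/-- The value of: `t` belongs to `C`, and `(x ∩ N) \ t` to `D`. -/
def h36_V (C D : Finset ℕ → B) (x : ℕ → B) (N : ℕ) (t : Finset ℕ) : B :=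
  PC x t ⊓ C t ⊓ ⨅ s : Finset ℕ, ⨅ _ : s ⊆ Finset.range N \ t, PC x s ⇨ D s

/-- There is a good splitting at level `N` which starts with `u`. -/
def h36_F (C D : Finset ℕ → B) (x : ℕ → B) (n N : ℕ) (u : Finset ℕ) : B :=
  ⨆ t : Finset ℕ, ⨆ _ : t ⊆ Finset.range N ∧ t ∩ Finset.range n = u, h36_V C D x N t

/-- There are good splittings at all levels which start with `u`. -/
def h36_G (C D : Finset ℕ → B) (x : ℕ → B) (n : ℕ) (u : Finset ℕ) : B :=
  ⨅ M : ℕ, h36_F C D x n (n + M) u

section

variable {C D : Finset ℕ → B} (hC : IsCF C) (x : ℕ → B)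
include hC

theorem h36_V_step (N : ℕ) (t : Finset ℕ) :
    h36_V C D x (N + 1) t ≤ h36_V C D x N (t ∩ Finset.range N) := by
  refine le_inf (le_inf ?_ ?_) ?_
  · exact inf_le_left.trans (inf_le_left.trans (h36_PC_anti x Finset.inter_subset_left))
  · exact inf_le_left.trans (inf_le_right.trans (hC.anti _ _ Finset.inter_subset_left))
  · refine inf_le_right.trans ?_
    refine le_iInf fun s => le_iInf fun hs => iInf_le_of_le s (iInf_le_of_le ?_ le_rfl)
    intro i hi
    have := hs hi
    simp only [Finset.mem_sdiff, Finset.mem_range, Finset.mem_inter, not_and] at this ⊢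
    refine ⟨by omega, fun h => this.2 h this.1⟩

theorem h36_F_step {n N : ℕ} (hnN : n ≤ N) (u : Finset ℕ) :
    h36_F C D x n (N + 1) u ≤ h36_F C D x n N u := by
  refine iSup_le fun t => iSup_le fun ht => ?_
  refine (h36_V_step hC x N t).trans ?_
  refine le_iSup_of_le (t ∩ Finset.range N) (le_iSup_of_le ⟨Finset.inter_subset_right, ?_⟩ le_rfl)
  rw [Finset.inter_assoc, ← ht.2]
  congr 1
  exact Finset.inter_eq_right.2 (Finset.range_subset_range.2 hnN)

theorem h36_F_anti (n : ℕ) (u : Finset ℕ) : Antitone fun M => h36_F C D x n (n + M) u :=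
  antitone_nat_of_succ_le fun M => h36_F_step hC x (Nat.le_add_right n M) u

theorem h36_G_split (n : ℕ) (u : Finset ℕ) :
    h36_G C D x n u ≤ h36_G C D x (n + 1) u ⊔ h36_G C D x (n + 1) (insert n u) := by
  unfold h36_G
  rw [← iInf_sup_of_antitone (h36_F_anti hC x (n + 1) u) (h36_F_anti hC x (n + 1) (insert n u))]
  refine le_iInf fun M => iInf_le_of_le (M + 1) ?_
  refine iSup_le fun t => iSup_le fun ht => ?_
  have e : n + (M + 1) = n + 1 + M := by omega
  rw [e] at ht ⊢
  have h1 : Finset.range (n + 1) = insert n (Finset.range n) := Finset.range_add_one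
  by_cases hn : n ∈ t
  · refine le_sup_of_le_right (le_iSup_of_le t (le_iSup_of_le ⟨ht.1, ?_⟩ le_rfl))
    rw [h1, Finset.inter_insert_of_mem hn, ht.2]
  · refine le_sup_of_le_left (le_iSup_of_le t (le_iSup_of_le ⟨ht.1, ?_⟩ le_rfl))
    rw [h1, Finset.inter_insert_of_notMem hn, ht.2]

omit hC in
theorem h36_G_V {n : ℕ} {u : Finset ℕ} : h36_G C D x n u ≤ h36_V C D x n u := by
  refine iInf_le_of_le 0 (iSup_le fun t => iSup_le fun ht => ?_)
  have : t = u := by
    rw [← ht.2]
    exact (Finset.inter_eq_left.2 ht.1).symm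
  rw [this]
  exact le_rfl

omit hC in
theorem h36_G_zero (hD : IsCF D) : memC x (joinC C D) ≤ h36_G C D x 0 ∅ := by
  refine le_iInf fun M => ?_
  rw [Nat.zero_add, ← inf_top_eq (memC x (joinC C D)), ← h36_E_top x M, inf_iSup_eq]
  refine iSup_le fun s => ?_
  rw [inf_iSup_eq]
  refine iSup_le fun hs => ?_
  have hE : h36_E x M s ≤ PC x s := by
    refine le_iInf fun n => le_iInf fun hn => ?_
    refine iInf_le_of_le n (iInf_le_of_le (Finset.mem_range.1 (hs hn)) ?_)
    rw [if_pos hn]
  have h1 : memC x (joinC C D) ⊓ h36_E x M s ≤ joinC C D s := by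
    refine le_trans (inf_le_inf (iInf_le _ s) hE) ?_
    rw [inf_comm]
    exact inf_himp_le
  have h2 : memC x (joinC C D) ⊓ h36_E x M s ≤ joinC C D s ⊓ h36_E x M s := le_inf h1 inf_le_right
  refine h2.trans ?_
  unfold joinC
  rw [iSup_inf_eq]
  refine iSup_le fun t => ?_
  rw [iSup_inf_eq]
  refine iSup_le fun ht => ?_
  refine le_iSup_of_le t (le_iSup_of_le ⟨ht.trans hs, by simp⟩ ?_)
  refine le_inf (le_inf ?_ ?_) ?_
  · exact inf_le_right.trans (hE.trans (h36_PC_anti x ht))
  · exact inf_le_left.trans inf_le_left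
  · refine le_iInf fun s' => le_iInf fun hs' => ?_
    rw [le_himp_iff]
    by_cases h : s' ⊆ s \ t
    · exact inf_le_left.trans (inf_le_left.trans (inf_le_right.trans (hD.anti _ _ h)))
    · obtain ⟨i, hi, hi'⟩ := Finset.not_subset.1 h
      have h3 := hs' hi
      simp only [Finset.mem_sdiff, Finset.mem_range] at h3 hi'
      have h4 : i ∉ s := fun h => hi' ⟨h, h3.2⟩
      have h5 : h36_E x M s ≤ (x i)ᶜ := by
        refine iInf_le_of_le i (iInf_le_of_le h3.1 ?_)
        rw [if_neg h4]
      have h6 : C t ⊓ D (s \ t) ⊓ h36_E x M s ⊓ PC x s' ≤ (x i)ᶜ ⊓ x i :=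
        le_inf (inf_le_left.trans (inf_le_right.trans h5)) (inf_le_right.trans (h36_PC_le x hi))
      rw [compl_inf_eq_bot] at h6
      exact h6.trans bot_le

end

/-- The value of: the leftmost branch starts with `u`. -/
def h36_W (C D : Finset ℕ → B) (x : ℕ → B) : ℕ → Finset ℕ → B
  | 0, u => if u = ∅ then ⊤ else ⊥
  | n + 1, u => if n ∈ u then h36_W C D x n (u.erase n) ⊓ h36_G C D x (n + 1) u
      else h36_W C D x n u ⊓ (h36_G C D x (n + 1) (insert n u))ᶜ

/-- The leftmost branch. -/
def h36_y (C D : Finset ℕ → B) (x : ℕ → B) (n : ℕ) : B :=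
  ⨆ u : Finset ℕ, ⨆ _ : u ⊆ Finset.range n, h36_W C D x n u ⊓ h36_G C D x (n + 1) (insert n u)

theorem h36_W_disj (C D : Finset ℕ → B) (x : ℕ → B) (n : ℕ) (u v : Finset ℕ) (h : u ≠ v) :
    h36_W C D x n u ⊓ h36_W C D x n v = ⊥ := by
  induction n generalizing u v with
  | zero =>
    simp only [h36_W]
    by_cases h1 : u = ∅
    · have h2 : v ≠ ∅ := fun h3 => h (h1.trans h3.symm)
      rw [if_neg h2, inf_bot_eq]
    · rw [if_neg h1, bot_inf_eq]
  | succ n ih =>
    simp only [h36_W]
    rw [eq_bot_iff]
    by_cases hu : n ∈ u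
    · by_cases hv : n ∈ v
      · rw [if_pos hu, if_pos hv]
        have h1 : u.erase n ≠ v.erase n := by
          intro h2
          apply h
          rw [← Finset.insert_erase hu, ← Finset.insert_erase hv, h2]
        rw [← ih _ _ h1]
        exact inf_le_inf inf_le_left inf_le_left
      · rw [if_pos hu, if_neg hv]
        by_cases h1 : u.erase n = v
        · have h2 : insert n v = u := by rw [← h1, Finset.insert_erase hu]
          rw [h2]
          have h3 := inf_le_inf (inf_le_right (a := h36_W C D x n (u.erase n))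
            (b := h36_G C D x (n + 1) u)) (inf_le_right (a := h36_W C D x n v)
            (b := (h36_G C D x (n + 1) u)ᶜ))
          rw [inf_compl_eq_bot] at h3
          exact h3
        · rw [← ih _ _ h1]
          exact inf_le_inf inf_le_left inf_le_left
    · by_cases hv : n ∈ v
      · rw [if_neg hu, if_pos hv]
        by_cases h1 : u = v.erase n
        · have h2 : insert n u = v := by rw [h1, Finset.insert_erase hv]
          rw [h2]
          have h3 := inf_le_inf (inf_le_right (a := h36_W C D x n u)
            (b := (h36_G C D x (n + 1) v)ᶜ)) (inf_le_right (a := h36_W C D x n (v.erase n))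
            (b := h36_G C D x (n + 1) v))
          rw [compl_inf_eq_bot] at h3
          exact h3
        · rw [← ih _ _ h1]
          exact inf_le_inf inf_le_left inf_le_left
      · rw [if_neg hu, if_neg hv, ← ih _ _ h]
        exact inf_le_inf inf_le_left inf_le_left

theorem h36_W_y_succ (C D : Finset ℕ → B) (x : ℕ → B) (n : ℕ) (u : Finset ℕ)
    (hu : u ⊆ Finset.range (n + 1)) :
    h36_W C D x (n + 1) u ≤ if n ∈ u then h36_y C D x n else (h36_y C D x n)ᶜ := by
  by_cases h : n ∈ u
  · rw [if_pos h]
    simp only [h36_W]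
    rw [if_pos h]
    refine le_iSup_of_le (u.erase n) (le_iSup_of_le ?_ ?_)
    · intro i hi
      rw [Finset.mem_erase] at hi
      have := Finset.mem_range.1 (hu hi.2)
      rw [Finset.mem_range]
      omega
    · rw [Finset.insert_erase h]
  · rw [if_neg h]
    simp only [h36_W]
    rw [if_neg h, le_compl_iff_disjoint_right, disjoint_iff, eq_bot_iff]
    unfold h36_y
    rw [inf_iSup_eq]
    refine iSup_le fun v => ?_
    rw [inf_iSup_eq]
    refine iSup_le fun hv => ?_
    by_cases huv : u = v
    · subst huv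
      have h3 := inf_le_inf (inf_le_right (a := h36_W C D x n u)
        (b := (h36_G C D x (n + 1) (insert n u))ᶜ)) (inf_le_right (a := h36_W C D x n u)
        (b := h36_G C D x (n + 1) (insert n u)))
      rw [compl_inf_eq_bot] at h3
      exact h3
    · rw [← h36_W_disj C D x n u v huv]
      exact inf_le_inf inf_le_left inf_le_left

theorem h36_W_y (C D : Finset ℕ → B) (x : ℕ → B) (n : ℕ) (u : Finset ℕ)
    (hu : u ⊆ Finset.range n) (i : ℕ) (hi : i < n) :
    h36_W C D x n u ≤ if i ∈ u then h36_y C D x i else (h36_y C D x i)ᶜ := by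
  induction n generalizing u with
  | zero => omega
  | succ n ih =>
    rcases Nat.lt_succ_iff_lt_or_eq.1 hi with h | rfl
    · have h1 : u.erase n ⊆ Finset.range n := by
        intro j hj
        rw [Finset.mem_erase] at hj
        have := Finset.mem_range.1 (hu hj.2)
        rw [Finset.mem_range]
        omega
      have h2 := ih (u.erase n) h1 h
      have h3 : (i ∈ u.erase n) ↔ i ∈ u := by
        rw [Finset.mem_erase]
        exact ⟨fun h => h.2, fun h4 => ⟨by omega, h4⟩⟩
      simp only [h3] at h2
      refine le_trans ?_ h2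
      simp only [h36_W]
      by_cases hn : n ∈ u
      · rw [if_pos hn]
        exact inf_le_left
      · rw [if_neg hn, Finset.erase_eq_of_notMem hn]
        exact inf_le_left
    · exact h36_W_y_succ C D x i u hu

theorem h36_branch {C D : Finset ℕ → B} (hC : IsCF C) (hD : IsCF D) (x : ℕ → B) (n : ℕ) :
    memC x (joinC C D) ≤
      ⨆ u : Finset ℕ, ⨆ _ : u ⊆ Finset.range n, h36_W C D x n u ⊓ h36_G C D x n u := by
  induction n with
  | zero =>
    refine le_iSup_of_le ∅ (le_iSup_of_le (by simp) ?_)
    simp only [h36_W, if_true, top_inf_eq]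
    exact h36_G_zero x hD
  | succ n ih =>
    refine ih.trans (iSup_le fun u => iSup_le fun hu => ?_)
    have hn : n ∉ u := fun h => by simpa using hu h
    have hu' : u ⊆ Finset.range (n + 1) := hu.trans (Finset.range_subset_range.2 (Nat.le_succ n))
    have h0 := h36_G_split (D := D) hC x n u
    have h1 : h36_W C D x n u ⊓ h36_G C D x n u ≤
        (h36_W C D x n u ⊓ (h36_G C D x (n + 1) (insert n u))ᶜ ⊓ h36_G C D x (n + 1) u) ⊔
        (h36_W C D x n u ⊓ h36_G C D x (n + 1) (insert n u) ⊓
          h36_G C D x (n + 1) (insert n u)) := by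
      have h2 : h36_W C D x n u ⊓ h36_G C D x n u =
          (h36_W C D x n u ⊓ h36_G C D x n u) ⊓ (h36_G C D x (n + 1) (insert n u))ᶜ ⊔
          (h36_W C D x n u ⊓ h36_G C D x n u) ⊓ h36_G C D x (n + 1) (insert n u) := by
        rw [← inf_sup_left, compl_sup_eq_top, inf_top_eq]
      rw [h2]
      refine sup_le_sup ?_ ?_
      · refine le_inf (inf_le_inf_right _ inf_le_left) ?_
        refine le_trans (inf_le_inf_right _ (inf_le_right.trans h0)) ?_
        rw [inf_sup_right, inf_compl_eq_bot, sup_bot_eq]
        exact inf_le_left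
      · exact le_inf (inf_le_inf_right _ inf_le_left) inf_le_right
    refine h1.trans (sup_le ?_ ?_)
    · refine le_iSup_of_le u (le_iSup_of_le hu' ?_)
      simp only [h36_W]
      rw [if_neg hn]
    · refine le_iSup_of_le (insert n u) (le_iSup_of_le ?_ ?_)
      · intro i hi
        rw [Finset.mem_insert] at hi
        rcases hi with rfl | hi
        · simp
        · exact hu' hi
      · simp only [h36_W]
        rw [if_pos (Finset.mem_insert_self _ _), Finset.erase_insert hn]

theorem koenig {C D : Finset ℕ → B} (hC : IsCF C) (hD : IsCF D) (x : ℕ → B) :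
    ∃ y ≤ x, memC x (joinC C D) ≤ memC y C ⊓ memC (x ⊓ yᶜ) D := by
  refine ⟨h36_y C D x, ?_, le_inf ?_ ?_⟩
  · intro n
    refine iSup_le fun u => iSup_le fun _ => ?_
    refine inf_le_right.trans ((h36_G_V x).trans ?_)
    exact inf_le_left.trans (inf_le_left.trans (h36_PC_le x (Finset.mem_insert_self _ _)))
  · refine le_iInf fun s => ?_
    rw [le_himp_iff]
    obtain ⟨n, hn⟩ : ∃ n, s ⊆ Finset.range n := s.exists_nat_subset_range
    refine le_trans (inf_le_inf_right _ (h36_branch hC hD x n)) ?_
    rw [iSup_inf_eq]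
    refine iSup_le fun u => ?_
    rw [iSup_inf_eq]
    refine iSup_le fun hu => ?_
    by_cases h : s ⊆ u
    · exact inf_le_left.trans (inf_le_right.trans ((h36_G_V x).trans
        (inf_le_left.trans (inf_le_right.trans (hC.anti _ _ h)))))
    · obtain ⟨i, hi, hi'⟩ := Finset.not_subset.1 h
      have h5 := h36_W_y C D x n u hu i (Finset.mem_range.1 (hn hi))
      rw [if_neg hi'] at h5
      have h6 : h36_W C D x n u ⊓ h36_G C D x n u ⊓ PC (h36_y C D x) s ≤
          (h36_y C D x i)ᶜ ⊓ h36_y C D x i :=
        le_inf (inf_le_left.trans (inf_le_left.trans h5)) (inf_le_right.trans (h36_PC_le _ hi))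
      rw [compl_inf_eq_bot] at h6
      exact h6.trans bot_le
  · refine le_iInf fun s => ?_
    rw [le_himp_iff]
    obtain ⟨n, hn⟩ : ∃ n, s ⊆ Finset.range n := s.exists_nat_subset_range
    refine le_trans (inf_le_inf_right _ (h36_branch hC hD x n)) ?_
    rw [iSup_inf_eq]
    refine iSup_le fun u => ?_
    rw [iSup_inf_eq]
    refine iSup_le fun hu => ?_
    by_cases h : ∀ i ∈ s, i ∉ u
    · have h1 : s ⊆ Finset.range n \ u := fun i hi => Finset.mem_sdiff.2 ⟨hn hi, h i hi⟩
      have h2 : h36_G C D x n u ≤ PC x s ⇨ D s :=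
        (h36_G_V x).trans (inf_le_right.trans (iInf_le_of_le s (iInf_le_of_le h1 le_rfl)))
      have h3 : PC (x ⊓ (h36_y C D x)ᶜ) s ≤ PC x s :=
        le_iInf fun i => le_iInf fun hi => (h36_PC_le _ hi).trans inf_le_left
      refine le_trans (inf_le_inf (inf_le_right.trans h2) h3) ?_
      rw [inf_comm]
      exact inf_himp_le
    · simp only [not_forall, not_not] at h
      obtain ⟨i, hi, hi'⟩ := h
      have h5 := h36_W_y C D x n u hu i (Finset.mem_range.1 (hn hi))
      rw [if_pos hi'] at h5
      have h6 : h36_W C D x n u ⊓ h36_G C D x n u ⊓ PC (x ⊓ (h36_y C D x)ᶜ) s ≤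
          h36_y C D x i ⊓ (h36_y C D x i)ᶜ :=
        le_inf (inf_le_left.trans (inf_le_left.trans h5))
          (inf_le_right.trans ((h36_PC_le _ hi).trans inf_le_right))
      rw [inf_compl_eq_bot] at h6
      exact h6.trans bot_le

end Pool.Agent.Helper94.BA
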